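import Pool.Agent.Y140.AW.Stm2
import Pool.Agent.Y140.AW.Bas

/-!
Project AW2 (helper140), job AW2-SPA: specialisation of the points, `s` to a nonzero value.
-/

set_option autoImplicit false

namespace Pool.Agent.Y921.AW2

open Polynomial Pool.Agent.Y140.AW

section ring

variable {K R M : Type} [Field K] [CommRing R] [Algebra K R] [Field M] [Algebra K M]

/-- `Θ(a, Z)` over a ring -/
noncomputable def tR (Θ : K[X][X]) (a : R) : R[X] :=
  Θ.map (Polynomial.aeval a : K[X] →ₐ[K] R).toRingHom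

theorem tA_map' (Θ : K[X][X]) (φ : R →ₐ[K] M) (a : R) :
    tA Θ (φ a) = (tR Θ a).map (φ : R →+* M) := by
  unfold tA tR
  rw [Polynomial.map_map]
  congr 1
  apply Polynomial.ringHom_ext
  · intro r
    change aeval (φ a) (C r) = φ (aeval a (C r))
    rw [aeval_C, aeval_C, φ.commutes]
  · change aeval (φ a) X = φ (aeval a X)
    rw [aeval_X, aeval_X]

theorem tA_eval' (Θ : K[X][X]) (φ : R →ₐ[K] M) (a b : R) :
    (tA Θ (φ a)).eval (φ b) = φ ((tR Θ a).eval b) := by
  rw [tA_map', eval_map]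
  exact eval₂_at_apply (φ : R →+* M) b

theorem tZ_map' (Θ : K[X][X]) (φ : R →ₐ[K] M) (a b : R) :
    tZ Θ (φ a) (φ b) = φ ((tR Θ a).derivative.eval b) := by
  unfold tZ
  rw [tA_map', derivative_map, eval_map]
  exact eval₂_at_apply (φ : R →+* M) b

/-- the value of `G` over a ring -/
noncomputable def gR (D : K[X]) (p B : ℕ) {m : ℕ} (ν : Fin m → R) (a : R) : R :=
  a * (aeval a D) ^ p + (a ^ B * aeval a D + 1) ^ p +
      (aeval a D) ^ p * ∑ i : Fin m, ν i * (a ^ p) ^ (i : ℕ)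

theorem GG_map' (D : K[X]) (p B : ℕ) {m : ℕ} (ν : Fin m → R) (φ : R →ₐ[K] M) (a : R) :
    (GG D p B (fun i => φ (ν i))).eval (φ a) = φ (gR D p B ν a) := by
  rw [GG_eval, gR]
  simp only [map_add, map_mul, map_pow, map_sum, map_one, aeval_algHom_apply]

end ring

theorem t_spa (h1 : St_pts2) (h2 : St_int2) : St_spa := by
  intro p _ K N k₀ _ _ _ _ _ _ _ _ Θ D₀ D₁ D d B m hDD hBB hD₁ hD ν s hs x θ hx hpt A ρ hA hsA hνA
    hρs
  have hp0 : p ≠ 0 := (Fact.out : p.Prime).ne_zero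
  have hD0 : D ≠ 0 := by
    rw [hD]
    exact pow_ne_zero _ (mul_ne_zero hDD.ne hD₁)
  have hint := fun l => h2 p K N Θ D₀ D₁ D d B m hDD hBB hD₁ hD ν s (x l) (θ l) (hpt l) A hsA hνA
  -- the formula for the differences
  obtain ⟨x₂, θ₂, hx₂, -, hall, hform₂⟩ := h1 p K N Θ D₀ D₁ D d B m hDD hBB hD₁ hD ν s hs
  choose π hπ using fun l => hall (x l) (θ l) (hpt l)
  have hπinj : Function.Injective π := by
    intro i j hij
    apply hx
    rw [(hπ i).1, (hπ j).1, hij]
  have hπb : Function.Bijective π := Finite.injective_iff_bijective.1 hπinj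
  have hform : ∀ l, (algebraMap K N D.leadingCoeff) ^ (p * d) *
      ∏ j ∈ Finset.univ.erase l, (x l - x j) =
      (aeval (x l) D) ^ p * (s * (aeval (x l) D) ^ p) ^ (d - 1) * (tZ Θ (x l) (θ l)) ^ p := by
    intro l
    have h4 := hform₂ (π l)
    rw [← (hπ l).1, ← (hπ l).2] at h4
    rw [← h4]
    congr 1
    refine Finset.prod_bij (fun j _ => π j) ?_ ?_ ?_ ?_
    · intro j hj
      rw [Finset.mem_erase] at hj ⊢
      exact ⟨fun h => hj.1 (hπinj h), Finset.mem_univ _⟩
    · intro i _ j _ hij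
      exact hπinj hij
    · intro j hj
      obtain ⟨i, rfl⟩ := hπb.2 j
      rw [Finset.mem_erase] at hj
      exact ⟨i, Finset.mem_erase.2 ⟨fun h => hj.1 (by rw [h]), Finset.mem_univ _⟩, rfl⟩
    · intro j _
      rw [← (hπ j).1]
  have hlc : (algebraMap K N D.leadingCoeff) ≠ 0 := by
    intro h0
    rw [map_eq_zero] at h0
    exact hD0 (leadingCoeff_eq_zero.1 h0)
  have htZ0 : ∀ l, tZ Θ (x l) (θ l) ≠ 0 := by
    intro l h0
    have h4 := hform l
    rw [h0, zero_pow hp0, mul_zero] at h4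
    rcases mul_eq_zero.1 h4 with h5 | h5
    · exact pow_ne_zero _ hlc h5
    · obtain ⟨j, hj, hj0⟩ := Finset.prod_eq_zero_iff.1 h5
      rw [Finset.mem_erase] at hj
      exact hj.1 (hx (sub_eq_zero.1 hj0)).symm
  -- the elements of `A`
  let sA : A := ⟨s, hsA⟩
  let νA : Fin m → A := fun i => ⟨ν i, hνA i⟩
  let xA : Fin (d * (p * (B + D.natDegree))) → A := fun l => ⟨x l, hA _ (hint l).1⟩
  let θA : Fin (d * (p * (B + D.natDegree))) → A := fun l => ⟨θ l, hA _ (hint l).2.1⟩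
  have hval : Function.Injective A.val := Subtype.val_injective
  have eD : ∀ l, A.val (aeval (xA l) D) = aeval (x l) D := fun l => by
    rw [← aeval_algHom_apply]
    rfl
  have eZ : ∀ l, A.val ((tR Θ (xA l)).derivative.eval (θA l)) = tZ Θ (x l) (θ l) := fun l => by
    rw [← tZ_map' Θ A.val]
    rfl
  have e1 : ∀ l, (tR Θ (xA l)).eval (θA l) = 0 := by
    intro l
    apply hval
    rw [← tA_eval' Θ A.val, map_zero]
    exact (hpt l).1
  have e2 : ∀ l, gR D p B νA (xA l) = sA * (aeval (xA l) D * θA l) ^ p := by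
    intro l
    apply hval
    rw [← GG_map' D p B νA A.val, map_mul, map_pow, map_mul, eD]
    exact (hpt l).2.2
  have hDu : ∀ l, ρ (aeval (xA l) D) ≠ 0 := by
    intro l h0
    let δ : A := ⟨(aeval (x l) D)⁻¹, hA _ (hint l).2.2.1⟩
    have h4 : aeval (xA l) D * δ = 1 := by
      apply hval
      rw [map_mul, eD, map_one]
      exact mul_inv_cancel₀ (hpt l).2.1
    have h5 := congrArg ρ h4
    rw [map_mul, h0, zero_mul, map_one] at h5
    exact zero_ne_one h5
  have hZu : ∀ l, ρ ((tR Θ (xA l)).derivative.eval (θA l)) ≠ 0 := by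
    intro l h0
    let δ : A := ⟨(tZ Θ (x l) (θ l))⁻¹, hA _ (hint l).2.2.2.2⟩
    have h4 : (tR Θ (xA l)).derivative.eval (θA l) * δ = 1 := by
      apply hval
      rw [map_mul, eZ, map_one]
      exact mul_inv_cancel₀ (htZ0 l)
    have h5 := congrArg ρ h4
    rw [map_mul, h0, zero_mul, map_one] at h5
    exact zero_ne_one h5
  have e3 : ∀ l, (algebraMap K A D.leadingCoeff) ^ (p * d) *
      ∏ j ∈ Finset.univ.erase l, (xA l - xA j) =
      (aeval (xA l) D) ^ p * (sA * (aeval (xA l) D) ^ p) ^ (d - 1) *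
        ((tR Θ (xA l)).derivative.eval (θA l)) ^ p := by
    intro l
    apply hval
    rw [map_mul, map_mul, map_mul, map_pow, map_pow, map_pow, map_pow, map_mul, map_pow, map_prod,
      eD, eZ]
    exact hform l
  refine ⟨fun l => ρ (xA l), fun l => ρ (θA l), ?_, ?_, ?_⟩
  · intro l j hlj
    by_contra hne
    have hlj' : ρ (xA l) = ρ (xA j) := hlj
    have h4 := congrArg ρ (e3 l)
    rw [map_mul, map_prod, Finset.prod_eq_zero (i := j)
      (Finset.mem_erase.2 ⟨fun h => hne h.symm, Finset.mem_univ _⟩)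
      (by rw [map_sub, hlj', sub_self]), mul_zero] at h4
    have h5 : ρ ((aeval (xA l) D) ^ p * (sA * (aeval (xA l) D) ^ p) ^ (d - 1) *
        ((tR Θ (xA l)).derivative.eval (θA l)) ^ p) ≠ 0 := by
      rw [map_mul, map_mul, map_pow, map_pow, map_pow, map_mul, map_pow]
      exact mul_ne_zero (mul_ne_zero (pow_ne_zero _ (hDu l)) (pow_ne_zero _
        (mul_ne_zero hρs (pow_ne_zero _ (hDu l))))) (pow_ne_zero _ (hZu l))
    exact h5 h4.symm
  · intro l
    refine ⟨?_, ?_, ?_⟩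
    · rw [tA_eval' Θ ρ, e1, map_zero]
    · rw [aeval_algHom_apply]
      exact hDu l
    · have h4 := GG_map' D p B νA ρ (xA l)
      have h5 : (GG D p B fun i => ρ ⟨ν i, hνA i⟩).eval (ρ (xA l)) = ρ (gR D p B νA (xA l)) := h4
      rw [h5, e2, map_mul, map_pow, map_mul, aeval_algHom_apply]
  · have hc : ∏ l, tZ Θ (x l) (θ l) ∈ A := A.prod_mem fun l _ => hA _ (hint l).2.2.2.1
    refine ⟨hc, ?_⟩
    have h4 : (⟨∏ l, tZ Θ (x l) (θ l), hc⟩ : A) =
        ∏ l, (tR Θ (xA l)).derivative.eval (θA l) := by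
      apply hval
      rw [map_prod]
      change ∏ l, tZ Θ (x l) (θ l) = _
      exact Finset.prod_congr rfl fun l _ => (eZ l).symm
    rw [h4, map_prod]
    exact Finset.prod_congr rfl fun l _ => (tZ_map' Θ ρ _ _).symm

end Pool.Agent.Y921.AW2
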